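import Pool.Agent.X120.Schan.Free
import Pool.Agent.X120.Soft.Cls
import Pool.Agent.Y916.Al.Gel

/-!
# Relations over algebraically independent constants
-/

set_option autoImplicit false

open Module

namespace Pool.Agent.X120.Gelf

open Pool.Agent.Y916.Om Pool.Agent.X120.Rec Pool.Agent.X120.Soft

/-- no relation of degree `≤ δ` over number fields of degree `≤ d` -/
def NoRelation (δ d : ℕ) {ι : Type} (x : ι → ℂ) : Prop :=
  ∀ L : IntermediateField ℚ ℂ, FiniteDimensional ℚ L → finrank ℚ L ≤ d →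
    ∀ P : MvPolynomial ι L, P ≠ 0 → P.totalDegree ≤ δ → MvPolynomial.aeval x P ≠ 0

theorem badW_of {l δ d : ℕ} {κ : Type} [Fintype κ] {u : Fin l → ℂ} (hu : AlgebraicIndependent ℚ u) {x : κ → ℂ}
    (h : ¬ NoRelation δ d (Sum.elim u x)) : BadW 1 (d ^ d * δ) (d ^ d * δ) u x := by
  classical
  simp only [NoRelation, not_forall, not_not] at h
  obtain ⟨K, hK, hKd, P, hP0, hPd, hPv⟩ := h
  obtain ⟨N, hN0, hNd, hNv⟩ := Pool.Agent.Y916.Gel.norm_poly K hKd P hP0 hPd _ hPv
  have h1 : MvPolynomial.aeval (Sum.elim (fun j => MvPolynomial.C (u j)) MvPolynomial.X) N ≠ (0 : MvPolynomial κ ℂ) :=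
    fun h0 => hN0 (Pool.Agent.Y916.Al.inj_subk u hu N h0)
  have h2 : ∃ y : κ → ℂ, MvPolynomial.aeval (Sum.elim u y) N ≠ 0 := by
    by_contra hcon
    push Not at hcon
    apply h1
    refine MvPolynomial.funext fun y => ?_
    rw [map_zero, ← hcon y]
    have h3 : ((MvPolynomial.aeval y : MvPolynomial κ ℂ →ₐ[ℂ] ℂ).restrictScalars ℚ).comp
        (MvPolynomial.aeval (Sum.elim (fun j => (MvPolynomial.C (u j) : MvPolynomial κ ℂ)) MvPolynomial.X) :
          MvPolynomial (Fin l ⊕ κ) ℚ →ₐ[ℚ] MvPolynomial κ ℂ) = MvPolynomial.aeval (Sum.elim u y) := by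
      refine MvPolynomial.algHom_ext fun i => ?_
      rcases i with i | i <;> simp
    exact DFunLike.congr_fun h3 N
  obtain ⟨y, hy⟩ := h2
  refine X120.Schan.badW_of_poly (⊥ : IntermediateField ℚ ℂ) inferInstance (by rw [IntermediateField.finrank_bot]) u x
    (MvPolynomial.map (algebraMap ℚ (⊥ : IntermediateField ℚ ℂ)) N) ?_ ?_ y ?_
  · exact (Finset.sup_mono (MvPolynomial.support_map_subset _ _)).trans hNd
  · rw [MvPolynomial.aeval_map_algebraMap]
    exact hNv
  · rw [MvPolynomial.aeval_map_algebraMap]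
    exact hy

theorem NoRelation.reindex {δ d : ℕ} {ι κ : Type} (e : ι ≃ κ) {x : κ → ℂ} (h : NoRelation δ d fun i => x (e i)) :
    NoRelation δ d x := by
  intro L hL hd P hP0 hPd hPv
  refine h L hL hd (MvPolynomial.rename e.symm P) ?_ ((MvPolynomial.totalDegree_rename_le _ _).trans hPd) ?_
  · intro h0
    exact hP0 (MvPolynomial.rename_injective _ e.symm.injective (h0.trans (map_zero _).symm))
  · rw [MvPolynomial.aeval_rename, ← hPv]
    congr 2
    funext i
    simp

end Pool.Agent.X120.Gelf
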